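import Pool.Agent.W95.EQ.Stm

set_option autoImplicit false

open Polynomial Topology Filter MeasureTheory

namespace Pool.Agent.W538.EQM.DLL

open Pool.Agent.W95.BK Pool.Agent.W95.EQ

universe u

theorem prod_low {α : Type*} (s : Multiset α) (f g : α → ℝ) (ρ : ℝ) (hρ : 0 ≤ ρ) (hρ1 : ρ ≤ 1)
    (hg : ∀ w, 0 ≤ g w) (h : ∀ w, ρ * g w ≤ f w) (n : ℕ) (hn : Multiset.card s ≤ n) :
    ρ ^ n * (s.map g).prod ≤ (s.map f).prod := by
  have hf : ∀ w, 0 ≤ f w := fun w => (mul_nonneg hρ (hg w)).trans (h w)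
  have hpos : ∀ s : Multiset α, 0 ≤ (s.map g).prod := by
    intro s
    induction s using Multiset.induction_on with
    | empty => simp
    | cons a s ih =>
      rw [Multiset.map_cons, Multiset.prod_cons]
      exact mul_nonneg (hg a) ih
  have key : ρ ^ (Multiset.card s) * (s.map g).prod ≤ (s.map f).prod := by
    clear hn
    induction s using Multiset.induction_on with
    | empty => simp
    | cons a s ih =>
      rw [Multiset.map_cons, Multiset.prod_cons, Multiset.map_cons, Multiset.prod_cons,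
        Multiset.card_cons, pow_succ]
      calc ρ ^ Multiset.card s * ρ * (g a * (s.map g).prod)
          = (ρ * g a) * (ρ ^ Multiset.card s * (s.map g).prod) := by ring
        _ ≤ f a * (s.map f).prod :=
            mul_le_mul (h a) ih (mul_nonneg (pow_nonneg hρ _) (hpos s)) (hf a)
  refine le_trans ?_ key
  exact mul_le_mul_of_nonneg_right (pow_le_pow_of_le_one hρ hρ1 hn) (hpos s)

theorem prod_up {α : Type*} (s : Multiset α) (f g : α → ℝ) (ρ : ℝ) (hρ1 : 1 ≤ ρ)
    (hf : ∀ w, 0 ≤ f w) (hg : ∀ w, 0 ≤ g w) (h : ∀ w, f w ≤ ρ * g w) (n : ℕ)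
    (hn : Multiset.card s ≤ n) :
    (s.map f).prod ≤ ρ ^ n * (s.map g).prod := by
  have hρ : 0 ≤ ρ := zero_le_one.trans hρ1
  have hpos : ∀ (g : α → ℝ), (∀ w, 0 ≤ g w) → ∀ s : Multiset α, 0 ≤ (s.map g).prod := by
    intro g hg s
    induction s using Multiset.induction_on with
    | empty => simp
    | cons a s ih =>
      rw [Multiset.map_cons, Multiset.prod_cons]
      exact mul_nonneg (hg a) ih
  have key : (s.map f).prod ≤ ρ ^ (Multiset.card s) * (s.map g).prod := by
    clear hn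
    induction s using Multiset.induction_on with
    | empty => simp
    | cons a s ih =>
      rw [Multiset.map_cons, Multiset.prod_cons, Multiset.map_cons, Multiset.prod_cons,
        Multiset.card_cons, pow_succ]
      calc f a * (s.map f).prod ≤ (ρ * g a) * (ρ ^ Multiset.card s * (s.map g).prod) :=
            mul_le_mul (h a) ih (hpos f hf s) (mul_nonneg hρ (hg a))
        _ = ρ ^ Multiset.card s * ρ * (g a * (s.map g).prod) := by ring
  refine key.trans ?_
  exact mul_le_mul_of_nonneg_right (pow_le_pow_right₀ hρ1 hn) (hpos g hg s)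

section
variable {K : Type u} [NontriviallyNormedField K] [IsUltrametricDist K]

omit [IsUltrametricDist K] in
theorem one_le_M (a : K) (r : ℝ) : 1 ≤ max 1 (max ‖a‖ r) := le_max_left _ _

omit [IsUltrametricDist K] in
theorem r_le_M (a : K) (r : ℝ) : r ≤ max 1 (max ‖a‖ r) :=
  (le_max_right _ _).trans (le_max_right _ _)

omit [IsUltrametricDist K] in
theorem a_le_M (a : K) (r : ℝ) : ‖a‖ ≤ max 1 (max ‖a‖ r) :=
  (le_max_left _ _).trans (le_max_right _ _)

theorem sub_le_max' (a b : K) : ‖a - b‖ ≤ max ‖a‖ ‖b‖ := by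
  have h := IsUltrametricDist.norm_add_le_max a (-b)
  rwa [← sub_eq_add_neg, norm_neg] at h

theorem lam_low (a w : K) (r : ℝ) (hr : 0 < r) :
    r / max 1 (max ‖a‖ r) * max ‖(0 : K) - w‖ 1 ≤ max ‖a - w‖ r := by
  have h1 := one_le_M a r
  have h2 := r_le_M a r
  have h3 := a_le_M a r
  set M := max 1 (max ‖a‖ r) with hM
  have hMp : 0 < M := by linarith
  rw [zero_sub, norm_neg]
  rcases le_or_gt ‖w‖ M with hw | hw
  · calc r / M * max ‖w‖ 1 ≤ r / M * M :=
          mul_le_mul_of_nonneg_left (max_le hw h1) (div_nonneg hr.le hMp.le)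
      _ = r := by field_simp
      _ ≤ _ := le_max_right _ _
  · have e1 : max ‖w‖ 1 = ‖w‖ := max_eq_left (by linarith)
    rw [e1]
    have e2 : ‖w‖ ≤ ‖a - w‖ := by
      have h4 : ‖w‖ ≤ max ‖a‖ ‖a - w‖ := by
        have := sub_le_max' a (a - w)
        rwa [sub_sub_cancel] at this
      rcases le_max_iff.mp h4 with h5 | h5
      · linarith
      · exact h5
    calc r / M * ‖w‖ ≤ 1 * ‖w‖ := by
          refine mul_le_mul_of_nonneg_right ?_ (norm_nonneg _)
          rw [div_le_one hMp]; exact h2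
      _ = ‖w‖ := one_mul _
      _ ≤ ‖a - w‖ := e2
      _ ≤ _ := le_max_left _ _

theorem lam_up (a w : K) (r : ℝ) :
    max ‖a - w‖ r ≤ max 1 (max ‖a‖ r) * max ‖(0 : K) - w‖ 1 := by
  have h1 := one_le_M a r
  have h2 := r_le_M a r
  have h3 := a_le_M a r
  set M := max 1 (max ‖a‖ r) with hM
  have hMp : 0 < M := by linarith
  rw [zero_sub, norm_neg]
  have h5 : 1 ≤ max ‖w‖ 1 := le_max_right _ _
  have h6 : ‖w‖ ≤ max ‖w‖ 1 := le_max_left _ _
  have h7 : M ≤ M * max ‖w‖ 1 := le_mul_of_one_le_right hMp.le h5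
  refine max_le ?_ (h2.trans h7)
  refine (sub_le_max' a w).trans (max_le (h3.trans h7) ?_)
  calc ‖w‖ ≤ 1 * max ‖w‖ 1 := by rw [one_mul]; exact h6
    _ ≤ M * max ‖w‖ 1 := mul_le_mul_of_nonneg_right h1 (by linarith)

theorem gauss_HK (hG : S_GLAM.{u}) (a : K) (r : ℝ) (hr : 0 < r) : HK (gauss a r hr) := by
  intro b hb
  have h1 := (hG K a b).2 r hr
  rw [hb, (hG K b b).1, sub_self, norm_zero] at h1
  have h2 : r ≤ max ‖a - b‖ r := le_max_right _ _
  linarith

variable [IsAlgClosed K]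

theorem low (hV : S_VAL.{u}) (hG : S_GLAM.{u}) (a : K) (r : ℝ) (hr : 0 < r) (h : K[X]) (d : ℕ)
    (hd : h.natDegree ≤ d) :
    (r / max 1 (max ‖a‖ r)) ^ d * gauss (0 : K) 1 one_pos h ≤ gauss a r hr h := by
  rw [hV K (gauss (0 : K) 1 one_pos) h, hV K (gauss a r hr) h]
  have h1 := one_le_M a r
  have h2 := r_le_M a r
  have h3 := fun w => lam_low a w r hr
  set M := max 1 (max ‖a‖ r) with hM
  have hMp : 0 < M := by linarith
  have key := prod_low h.roots (fun w => lam (gauss a r hr) w)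
    (fun w => lam (gauss (0 : K) 1 one_pos) w) (r / M) (div_nonneg hr.le hMp.le)
    ((div_le_one hMp).2 h2)
    (fun w => by rw [(hG K 0 w).2 1 one_pos]; exact le_max_of_le_right zero_le_one)
    (fun w => by rw [(hG K 0 w).2 1 one_pos, (hG K a w).2 r hr]; exact h3 w) d
    ((card_roots' h).trans hd)
  calc (r / M) ^ d * (‖h.leadingCoeff‖ * (h.roots.map fun w => lam (gauss (0 : K) 1 one_pos) w).prod)
      = ‖h.leadingCoeff‖ * ((r / M) ^ d *
        (h.roots.map fun w => lam (gauss (0 : K) 1 one_pos) w).prod) := by ring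
    _ ≤ _ := mul_le_mul_of_nonneg_left key (norm_nonneg _)

theorem up (hV : S_VAL.{u}) (hG : S_GLAM.{u}) (a : K) (r : ℝ) (hr : 0 < r) (h : K[X]) (d : ℕ)
    (hd : h.natDegree ≤ d) :
    gauss a r hr h ≤ (max 1 (max ‖a‖ r)) ^ d * gauss (0 : K) 1 one_pos h := by
  rw [hV K (gauss (0 : K) 1 one_pos) h, hV K (gauss a r hr) h]
  have h1 := one_le_M a r
  have h3 := fun w => lam_up a w r
  set M := max 1 (max ‖a‖ r) with hM
  have key := prod_up h.roots (fun w => lam (gauss a r hr) w)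
    (fun w => lam (gauss (0 : K) 1 one_pos) w) M h1
    (fun w => by rw [(hG K a w).2 r hr]; exact le_max_of_le_right hr.le)
    (fun w => by rw [(hG K 0 w).2 1 one_pos]; exact le_max_of_le_right zero_le_one)
    (fun w => by rw [(hG K 0 w).2 1 one_pos, (hG K a w).2 r hr]; exact h3 w) d
    ((card_roots' h).trans hd)
  calc ‖h.leadingCoeff‖ * (h.roots.map fun w => lam (gauss a r hr) w).prod
      ≤ ‖h.leadingCoeff‖ * (M ^ d * (h.roots.map fun w => lam (gauss (0 : K) 1 one_pos) w).prod) :=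
        mul_le_mul_of_nonneg_left key (norm_nonneg _)
    _ = _ := by ring

end

theorem main : S_ACT.{u} → S_ACTG.{u} → S_VAL.{u} → S_GLAM.{u} → S_AVOID.{u} → S_DLL.{u} := by
  intro hA hAG hV hG hAv K _ _ _ R
  -- degrees
  have hPd : R.P.natDegree ≤ R.d := R.deg_eq ▸ le_max_left _ _
  have hQd : R.Q.natDegree ≤ R.d := R.deg_eq ▸ le_max_right _ _
  have hPQd : ∀ c : K, (R.P - C c * R.Q).natDegree ≤ R.d := fun c =>
    (natDegree_sub_le _ _).trans (max_le hPd ((natDegree_C_mul_le _ _).trans hQd))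
  have hQ0 : R.Q ≠ 0 := by
    intro h
    have h1 := R.cop
    rw [h, isCoprime_zero_right] at h1
    have h2 := natDegree_eq_zero_of_isUnit h1
    have h3 := R.deg_eq
    rw [h2, h, natDegree_zero, max_self] at h3
    have := R.pos
    omega
  -- the Gauss point and its image
  obtain ⟨b₀, e₀, t₀, ht₀, _, hact₀⟩ := hAG K R 0 1 1 one_pos (norm_one)
  have hζHK : HK (gauss (0 : K) 1 one_pos) := gauss_HK hG 0 1 one_pos
  have hζQ : 0 < gauss (0 : K) 1 one_pos R.Q :=
    lt_of_le_of_ne (BA.nonneg' _ _) (Ne.symm ((hAv K _ hζHK).1 R.Q hQ0))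
  obtain ⟨y₀, _, hy₀, _, hlam₀⟩ := (hA K R).1 _ hζHK
  have hy₀' : y₀ = gauss b₀ t₀ ht₀ := by
    rw [hact₀] at hy₀
    exact (OnePoint.coe_eq_coe.mp hy₀).symm
  subst hy₀'
  set M₀ := max 1 (max ‖b₀‖ t₀) with hM₀
  have hM₀p : 0 < M₀ := lt_of_lt_of_le one_pos (le_max_left _ _)
  set ζQ := gauss (0 : K) 1 one_pos R.Q with hζQdef
  set ζP := gauss (0 : K) 1 one_pos R.P with hζPdef
  set ε₀ := ζQ * (t₀ / M₀) with hε₀
  have hε₀p : 0 < ε₀ := mul_pos hζQ (div_pos ht₀ hM₀p)
  have hε : ∀ c : K, ε₀ * max ‖c‖ 1 ≤ gauss (0 : K) 1 one_pos (R.P - C c * R.Q) := by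
    intro c
    have h1 := hlam₀ c
    rw [(hG K b₀ c).2 t₀ ht₀, eq_div_iff hζQ.ne'] at h1
    rw [← h1]
    have h2 := lam_low b₀ c t₀ ht₀
    rw [zero_sub, norm_neg] at h2
    calc ε₀ * max ‖c‖ 1 = (t₀ / M₀ * max ‖c‖ 1) * ζQ := by rw [hε₀]; ring
      _ ≤ max ‖b₀ - c‖ t₀ * ζQ := mul_le_mul_of_nonneg_right h2 hζQ.le
  set A := max ζP ζQ with hA'
  have hAp : 0 < A := lt_of_lt_of_le hζQ (le_max_right _ _)
  set κ := min ε₀ ζQ / A with hκ
  have hκp : 0 < κ := div_pos (lt_min hε₀p hζQ) hAp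
  refine ⟨|Real.log κ|, abs_nonneg _, ?_⟩
  intro a c r hr b t ht _ hact
  -- the image
  have hxHK : HK (gauss a r hr) := gauss_HK hG a r hr
  have hxQ : 0 < gauss a r hr R.Q :=
    lt_of_le_of_ne (BA.nonneg' _ _) (Ne.symm ((hAv K _ hxHK).1 R.Q hQ0))
  obtain ⟨y, _, hy, _, hlam⟩ := (hA K R).1 _ hxHK
  have hy' : y = gauss b t ht := by
    rw [hact] at hy
    exact (OnePoint.coe_eq_coe.mp hy).symm
  subst hy'
  have hup : ∀ h : K[X], h.natDegree ≤ R.d → gauss a r hr h ≤
      (max 1 (max ‖a‖ r)) ^ R.d * gauss (0 : K) 1 one_pos h := fun h hh =>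
    up hV hG a r hr h R.d hh
  have hlow : ∀ h : K[X], h.natDegree ≤ R.d → (r / max 1 (max ‖a‖ r)) ^ R.d *
      gauss (0 : K) 1 one_pos h ≤ gauss a r hr h := fun h hh =>
    low hV hG a r hr h R.d hh
  have hM1 := one_le_M a r
  have hMr := r_le_M a r
  have hsd : sd a r = r / (max 1 (max ‖a‖ r)) ^ 2 := rfl
  set M := max 1 (max ‖a‖ r) with hM
  have hMp : 0 < M := by linarith
  set xQ := gauss a r hr R.Q with hxQdef
  have hlam' : ∀ c : K, max ‖b - c‖ t * xQ = gauss a r hr (R.P - C c * R.Q) := by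
    intro c
    have h1 := hlam c
    rw [(hG K b c).2 t ht, eq_div_iff hxQ.ne'] at h1
    exact h1
  have hxP : max ‖b‖ t * xQ = gauss a r hr R.P := by
    have h1 := hlam' 0
    rw [sub_zero, C_0, zero_mul, sub_zero] at h1
    exact h1
  have hMb1 := one_le_M b t
  have hMbt := r_le_M b t
  have hsd' : sd b t = t / (max 1 (max ‖b‖ t)) ^ 2 := rfl
  -- upper bound
  have hU : max 1 (max ‖b‖ t) * xQ ≤ A * M ^ R.d := by
    rw [max_mul_of_nonneg _ _ hxQ.le, one_mul, hxP]
    have hMd : 0 ≤ M ^ R.d := pow_nonneg hMp.le _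
    refine max_le ?_ ?_
    · calc xQ ≤ M ^ R.d * ζQ := hup R.Q hQd
        _ ≤ M ^ R.d * A := mul_le_mul_of_nonneg_left (le_max_right _ _) hMd
        _ = _ := mul_comm _ _
    · calc gauss a r hr R.P ≤ M ^ R.d * ζP := hup R.P hPd
        _ ≤ M ^ R.d * A := mul_le_mul_of_nonneg_left (le_max_left _ _) hMd
        _ = _ := mul_comm _ _
  -- lower bound for the diameter
  have hL : κ * sd a r ^ R.d ≤ sd b t := by
    have hsdpow : sd a r ^ R.d = (r / M) ^ R.d / M ^ R.d := by
      rw [hsd, ← div_pow]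
      congr 1
      field_simp
    have hρ : 0 ≤ (r / M) ^ R.d := pow_nonneg (div_nonneg hr.le hMp.le) _
    have hMdp : 0 < M ^ R.d := pow_pos hMp _
    rw [hsd', hsdpow]
    set M' := max 1 (max ‖b‖ t) with hM'
    have hM'p : 0 < M' := by linarith
    have hM'Q : 0 < M' * xQ := mul_pos hM'p hxQ
    -- it suffices to bound t * xQ from below
    have hsuff : min ε₀ ζQ * (r / M) ^ R.d * M' ≤ t * xQ := by
      rcases le_or_gt t (max ‖b‖ 1) with hcase | hcase
      · have e1 : M' = max ‖b‖ 1 := by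
          apply le_antisymm
          · exact max_le (le_max_right _ _) (max_le (le_max_left _ _) hcase)
          · exact max_le ((le_max_left _ _).trans (le_max_right _ _)) (le_max_left _ _)
        have e2 : t * xQ = gauss a r hr (R.P - C b * R.Q) := by
          have h1 := hlam' b
          rw [sub_self, norm_zero, max_eq_right ht.le] at h1
          exact h1
        rw [e2]
        calc min ε₀ ζQ * (r / M) ^ R.d * M' ≤ ε₀ * (r / M) ^ R.d * M' := by
              refine mul_le_mul_of_nonneg_right ?_ hM'p.le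
              exact mul_le_mul_of_nonneg_right (min_le_left _ _) hρ
          _ = (r / M) ^ R.d * (ε₀ * max ‖b‖ 1) := by rw [← e1]; ring
          _ ≤ (r / M) ^ R.d * gauss (0 : K) 1 one_pos (R.P - C b * R.Q) :=
              mul_le_mul_of_nonneg_left (hε b) hρ
          _ ≤ _ := hlow _ (hPQd b)
      · have e1 : M' = t := by
          apply le_antisymm
          · have h1 := le_max_left ‖b‖ 1
            have h2 := le_max_right ‖b‖ 1
            exact max_le (by linarith) (max_le (by linarith) le_rfl)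
          · exact hMbt
        rw [e1]
        calc min ε₀ ζQ * (r / M) ^ R.d * t ≤ ζQ * (r / M) ^ R.d * t := by
              refine mul_le_mul_of_nonneg_right ?_ ht.le
              exact mul_le_mul_of_nonneg_right (min_le_right _ _) hρ
          _ = t * ((r / M) ^ R.d * ζQ) := by ring
          _ ≤ t * xQ := mul_le_mul_of_nonneg_left (hlow _ hQd) ht.le
    calc κ * ((r / M) ^ R.d / M ^ R.d)
        = (min ε₀ ζQ * (r / M) ^ R.d * M') / (M' * (A * M ^ R.d)) := by
          rw [hκ]; field_simp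
      _ ≤ (t * xQ) / (M' * (A * M ^ R.d)) :=
          div_le_div_of_nonneg_right hsuff (by positivity)
      _ ≤ (t * xQ) / (M' * (M' * xQ)) := by
          refine div_le_div_of_nonneg_left (by positivity) (by positivity) ?_
          exact mul_le_mul_of_nonneg_left hU hM'p.le
      _ = t / M' ^ 2 := by field_simp
  have hsdp : 0 < sd a r := by
    rw [hsd]; positivity
  have hlog := Real.log_le_log (mul_pos hκp (pow_pos hsdp _)) hL
  rw [Real.log_mul hκp.ne' (pow_pos hsdp _).ne', Real.log_pow] at hlog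
  have h9 := neg_abs_le (Real.log κ)
  linarith

end Pool.Agent.W538.EQM.DLL
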